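import Pool.Agent.Lib.MP_f80667_ag.Fa.Inv
import Pool.Agent.Lib.MP_f80667_ag.Fa.Ext0

/-!
The divisor of a function on a normal projective curve has degree `0`, first part: the ring
`R = k[x]` in a function field `E`, and its integral closure in `E`.
-/

open Polynomial

open scoped IntermediateField.algebraAdjoinAdjoin

namespace Dz

open ZC

universe u

variable {k E : Type u} [Field k] [Field E] [Algebra k E]

/-- A function field is finite over `k(x)` for every transcendental `x`. -/
theorem finite_adjoin (hE : IsFunField k E) {x : E} (hx : Transcendental k x) :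
    FiniteDimensional (IntermediateField.adjoin k {x}) E := by
  have h1 : Algebra.EssFiniteType k E := by
    obtain ⟨t, ht, hfin⟩ := hE
    have h2 : Algebra.EssFiniteType k (IntermediateField.adjoin k {t}) :=
      (IntermediateField.essFiniteType_iff).2 ⟨{t}, by simp⟩
    exact Algebra.EssFiniteType.comp k (IntermediateField.adjoin k {t}) E
  have h3 : Algebra.EssFiniteType (IntermediateField.adjoin k {x}) E :=
    Algebra.EssFiniteType.of_comp k (IntermediateField.adjoin k {x}) E
  have h4 : Algebra.IsAlgebraic (IntermediateField.adjoin k {x}) E :=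
    (IsFractionRing.comap_isAlgebraic_iff (A := Algebra.adjoin k {x})
      (K := IntermediateField.adjoin k {x}) (C := E)).1 (Fa.alg_of_transc hE hx)
  obtain ⟨s, hs⟩ := IntermediateField.fg_top (IntermediateField.adjoin k {x}) E
  have h5 : FiniteDimensional (IntermediateField.adjoin k {x})
      (IntermediateField.adjoin (IntermediateField.adjoin k {x}) (s : Set E)) :=
    IntermediateField.finiteDimensional_adjoin fun y _ =>
      (Algebra.IsAlgebraic.isAlgebraic y).isIntegral
  rw [hs] at h5
  exact (IntermediateField.topEquiv (F := IntermediateField.adjoin k {x})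
    (E := E)).toLinearEquiv.finiteDimensional

/-- The ring `k[x]`. -/
theorem dedekind_adjoin {x : E} (hx : Transcendental k x) :
    IsPrincipalIdealRing (Algebra.adjoin k {x}) := by
  let e := Polynomial.algEquivOfTranscendental k x hx
  exact IsPrincipalIdealRing.of_surjective e.toRingEquiv e.surjective

/-- Evaluation at `x = 0`. -/
noncomputable def ev0 {x : E} (hx : Transcendental k x) : Algebra.adjoin k {x} →ₐ[k] k :=
  (aeval (0 : k)).comp (Polynomial.algEquivOfTranscendental k x hx).symm.toAlgHom

/-- The element `x` of `k[x]`. -/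
def xx (k : Type u) {E : Type u} [Field k] [Field E] [Algebra k E] (x : E) :
    Algebra.adjoin k {x} := ⟨x, Algebra.self_mem_adjoin_singleton k x⟩

theorem ev0_xx {x : E} (hx : Transcendental k x) : ev0 hx (xx k x) = 0 := by
  have h1 : (Polynomial.algEquivOfTranscendental k x hx) X = xx k x := by
    ext
    simp [xx]
  have h2 : (Polynomial.algEquivOfTranscendental k x hx).symm (xx k x) = X := by
    rw [← h1, AlgEquiv.symm_apply_apply]
  change aeval (0 : k) ((Polynomial.algEquivOfTranscendental k x hx).symm (xx k x)) = 0
  rw [h2, aeval_X]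

theorem ker_ev0 {x : E} (hx : Transcendental k x) :
    RingHom.ker (ev0 hx) = Ideal.span {xx k x} := by
  have h1 : (Polynomial.algEquivOfTranscendental k x hx) X = xx k x := by
    ext
    simp [xx]
  apply le_antisymm
  · intro y hy
    rw [RingHom.mem_ker] at hy
    have h3 : aeval (0 : k) ((Polynomial.algEquivOfTranscendental k x hx).symm y) = 0 := hy
    rw [aeval_def, eval₂_at_zero] at h3
    have h4 : ((Polynomial.algEquivOfTranscendental k x hx).symm y).coeff 0 = 0 := h3
    obtain ⟨q, hq⟩ := X_dvd_iff.2 h4
    rw [Ideal.mem_span_singleton]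
    refine ⟨Polynomial.algEquivOfTranscendental k x hx q, ?_⟩
    rw [← h1, ← map_mul, ← hq, AlgEquiv.apply_symm_apply]
  · rw [Ideal.span_singleton_le_iff_mem, RingHom.mem_ker]
    exact ev0_xx hx

theorem ev0_surj {x : E} (hx : Transcendental k x) : Function.Surjective (ev0 hx) :=
  fun a => ⟨algebraMap k _ a, by simp⟩

theorem max_ker {x : E} (hx : Transcendental k x) : (Ideal.span {xx k x}).IsMaximal := by
  rw [← ker_ev0 hx]
  exact RingHom.ker_isMaximal_of_surjective _ (ev0_surj hx)

theorem finrank_quot {x : E} (hx : Transcendental k x) :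
    Module.finrank k (Algebra.adjoin k {x} ⧸ Ideal.span {xx k x}) = 1 := by
  have e1 : (Algebra.adjoin k {x} ⧸ Ideal.span {xx k x}) ≃ₐ[k]
      (Algebra.adjoin k {x} ⧸ RingHom.ker (ev0 hx)) :=
    Ideal.quotientEquivAlgOfEq k (ker_ev0 hx).symm
  have e2 := Ideal.quotientKerAlgEquivOfSurjective (ev0_surj hx)
  rw [(e1.trans e2).toLinearEquiv.finrank_eq, Module.finrank_self]

end Dz
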