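import Pool.Agent.Lib.MP_f80667_ag.Dz.Plc

/-!
The divisor of a function on a normal projective curve has degree `0`.

* `sum_zeros`: the sum of the orders of `x` at its zeros (`Ω`-valued places) is `[E : k(x)]`.
* `sum_ord`: the sum of all orders of `g ≠ 0` is `0`.
* `ratEq_le_deg`: cycles rationally equivalent to `0` have degree `0`.
-/

open Polynomial IsDedekindDomain

open scoped IntermediateField.algebraAdjoinAdjoin LinearAlgebra.Projectivization

namespace Dz

open ZC

universe u

variable {k E Ω : Type u} [Field k] [Field E] [Field Ω] [Algebra k E] [Algebra k Ω]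

/-- A place which contains `x` contains the integral closure of `k[x]`. -/
theorem mem_of_integral (w : Place k E Ω) {x : E} (hx : x ∈ w.V)
    (b : integralClosure (Algebra.adjoin k {x}) E) : (b : E) ∈ w.V := by
  have hR : ∀ y : Algebra.adjoin k {x}, (y : E) ∈ w.V := by
    intro y
    have h1 : Algebra.adjoin k {x} ≤
        ({ w.V.toSubring with algebraMap_mem' := w.mem } : Subalgebra k E) := by
      rw [Algebra.adjoin_le_iff]
      rintro _ rfl
      exact hx
    exact h1 y.2
  obtain ⟨p, hp, hpb⟩ := b.2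
  have h1 : IsIntegral w.V.valuation.integer (b : E) := by
    let φ : Algebra.adjoin k {x} →+* w.V.valuation.integer :=
      { toFun := fun c => ⟨(c : E), (w.V.valuation_le_one_iff _).2 (hR c)⟩
        map_one' := by ext; simp
        map_zero' := by ext; simp
        map_mul' := by intro x y; ext; simp
        map_add' := by intro x y; ext; simp }
    refine ⟨p.map φ, hp.map φ, ?_⟩
    rw [Polynomial.eval₂_map]
    exact hpb
  have h3 := (Valuation.Integers.mem_of_integral (Valuation.integer.integers w.V.valuation) h1)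
  exact (w.V.valuation_le_one_iff _).1 h3

/-- The sum of the orders of `x` at its zeros. -/
theorem sum_zeros [CharZero k] [IsAlgClosed Ω] (hE : IsFunField k E) {x : E}
    (hx : Transcendental k x) (T : Finset (Place k E Ω)) (m : Place k E Ω → ℤ)
    (h1 : ∀ w, w ∈ T ↔ x ∈ w.V.nonunits) (h2 : ∀ w ∈ T, w.IsOrd x (m w)) :
    ∑ w ∈ T, m w = (Module.finrank (IntermediateField.adjoin k {x}) E : ℤ) := by
  classical
  let R := Algebra.adjoin k {x}
  let K := IntermediateField.adjoin k {x}
  let B := integralClosure R E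
  have hfin : FiniteDimensional K E := finite_adjoin hE hx
  have hpid : IsPrincipalIdealRing R := dedekind_adjoin hx
  have hded : IsDedekindDomain R := inferInstance
  have hchar : CharZero K := charZero_of_injective_algebraMap (algebraMap k K).injective
  have hsep : Algebra.IsSeparable K E := inferInstance
  have hB : IsDedekindDomain B := integralClosure.isDedekindDomain R K E
  have hBfin : Module.Finite R B := IsIntegralClosure.finite R K E B
  have hfr : IsFractionRing B E := IsIntegralClosure.isFractionRing_of_finite_extension R K E B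
  have hrank : Module.finrank R B = Module.finrank K E := IsIntegralClosure.rank R K E B
  let p : Ideal R := Ideal.span {xx k x}
  have hp : p.IsMaximal := max_ker hx
  have hx0 : x ≠ 0 := by
    rintro rfl
    exact hx ⟨X, X_ne_zero, by simp⟩
  have hxx0 : xx k x ≠ 0 := fun h => hx0 (congrArg Subtype.val h)
  have hp0 : p ≠ ⊥ := by
    rw [Ne, Ideal.span_singleton_eq_bot]
    exact hxx0
  have hflat : Module.Flat R B := inferInstance
  let b0 : B := algebraMap R B (xx k x)
  have hb0E : algebraMap B E b0 = x := rfl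
  have hb0 : b0 ≠ 0 := fun h => hx0 (by rw [← hb0E, h, map_zero])
  have hpB : p.map (algebraMap R B) = Ideal.span {b0} := by
    rw [Ideal.map_span, Set.image_singleton]
  have hpB0 : p.map (algebraMap R B) ≠ ⊥ := by
    rw [hpB, Ne, Ideal.span_singleton_eq_bot]
    exact hb0
  let : Fintype (p.primesOver B) := (Algebra.QuasiFinite.finite_primesOver p).fintype
  have hsum := Ideal.sum_ramification_inertia_eq_finrank p B
  have hIsB : ∀ (w : Place k E Ω), x ∈ w.V → ∀ b : B, algebraMap B E b ∈ w.V :=
    fun w hw b => mem_of_integral w hw b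
  -- the centre of a place
  let cond : p.primesOver B → Place k E Ω → Prop := fun q w =>
    ∀ b : B, algebraMap B E b ∈ w.V.nonunits ↔ b ∈ q.1
  have huniq : ∀ w q q', cond q w → cond q' w → q = q' := by
    intro w q q' h h'
    ext b
    rw [← h b, ← h' b]
  have hex : ∀ w ∈ T, ∃ q, cond q w := by
    intro w hw
    have hxw : x ∈ w.V.nonunits := (h1 w).1 hw
    have hxV : x ∈ w.V := w.V.nonunits_subset hxw
    let χ : B →+* Ω := w.res.comp ((algebraMap B E).codRestrict w.V.toSubring (hIsB w hxV))
    have hχ : ∀ b, b ∈ RingHom.ker χ ↔ algebraMap B E b ∈ w.V.nonunits := by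
      intro b
      rw [RingHom.mem_ker]
      exact Fa.res_eq_zero_iff w _
    have hprime : (RingHom.ker χ).IsPrime := RingHom.ker_isPrime χ
    have hle : p ≤ (RingHom.ker χ).under R := by
      rw [Ideal.span_singleton_le_iff_mem]
      change algebraMap R B (xx k x) ∈ RingHom.ker χ
      rw [hχ]
      exact hxw
    have hlies : (RingHom.ker χ).LiesOver p := by
      refine ⟨hp.eq_of_le ?_ hle⟩
      exact Ideal.IsPrime.ne_top inferInstance
    exact ⟨⟨RingHom.ker χ, hprime, hlies⟩, fun b => (hχ b).symm⟩
  have hbot : ∀ q : p.primesOver B, q.1 ≠ ⊥ := by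
    intro q hq
    have h3 : b0 ∈ q.1 := by
      have := q.2.2
      have h4 : xx k x ∈ q.1.under R := by
        rw [← q.2.2.over]
        exact Ideal.mem_span_singleton_self _
      exact h4
    rw [hq, Ideal.mem_bot] at h3
    exact hb0 h3
  let vq : p.primesOver B → HeightOneSpectrum B := fun q => ⟨q.1, q.2.1, hbot q⟩
  have hplc : ∀ q w, w ∈ T → cond q w → ∃ φ : B ⧸ (vq q).asIdeal →ₐ[k] Ω, plc (vq q) φ E = w :=
    fun q w hw hc => plc_surj (vq q) w (hIsB w (w.V.nonunits_subset ((h1 w).1 hw))) hc
  have hram : ∀ q w, w ∈ T → cond q w → m w = (q.1.ramificationIdx R : ℤ) := by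
    intro q w hw hc
    obtain ⟨φ, hφ⟩ := hplc q w hw hc
    have h3 : w.V = VV E (vq q) := by rw [← hφ]; rfl
    have h4 := ord_plc (k := k) (vq q) w h3 hb0
    rw [hb0E] at h4
    have := q.2.1
    have := q.2.2
    rw [Ideal.IsDedekindDomain.ramificationIdx_eq_multiplicity p q.1 hpB0, hpB]
    exact (h2 w hw).unique rfl h4
  have hcard : ∀ q, (T.filter (cond q)).card = q.1.inertiaDeg R := by
    intro q
    have hq1 := q.2.1
    have hq2 := q.2.2
    have hq3 : q.1.IsMaximal := Ideal.IsMaximal.of_liesOver_isMaximal q.1 p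
    let : Field (R ⧸ p) := Ideal.Quotient.field p
    let : Field (B ⧸ q.1) := Ideal.Quotient.field q.1
    have hs1 : IsScalarTower k (R ⧸ p) (B ⧸ q.1) := IsScalarTower.of_algebraMap_eq fun a => rfl
    have hf1 : Module.finrank k (R ⧸ p) = 1 := finrank_quot hx
    have hf2 : Module.finrank k (B ⧸ q.1) = Module.finrank (R ⧸ p) (B ⧸ q.1) := by
      rw [← Module.finrank_mul_finrank k (R ⧸ p) (B ⧸ q.1), hf1, one_mul]
    have hf3 : Module.Finite k (R ⧸ p) := Module.finite_of_finrank_pos (by rw [hf1]; exact one_pos)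
    have hf4 : Module.Finite k (B ⧸ q.1) := Module.Finite.trans (R ⧸ p) (B ⧸ q.1)
    rw [Ideal.inertiaDeg_eq_of_isMaximal p q.1, ← hf2, ← AlgHom.card k (B ⧸ q.1) Ω,
      ← Finset.card_univ]
    symm
    refine Finset.card_bij (fun φ _ => plc (vq q) φ E) ?_ ?_ ?_
    · intro φ _
      have h3 : ∀ b : B, algebraMap B E b ∈ (plc (vq q) φ E).V.nonunits ↔ b ∈ q.1 :=
        map_mem_nonunits_VV (vq q)
      rw [Finset.mem_filter, h1]
      refine ⟨(h3 b0).2 ?_, h3⟩
      have h4 : xx k x ∈ q.1.under R := by
        rw [← hq2.over]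
        exact Ideal.mem_span_singleton_self _
      exact h4
    · intro φ _ φ' _ h
      exact plc_inj (vq q) h
    · intro w hw
      rw [Finset.mem_filter] at hw
      obtain ⟨φ, hφ⟩ := hplc q w hw.1 hw.2
      exact ⟨φ, Finset.mem_univ _, hφ⟩
  calc ∑ w ∈ T, m w
      = ∑ w ∈ T, ∑ q : p.primesOver B, if cond q w then (q.1.ramificationIdx R : ℤ) else 0 := by
        refine Finset.sum_congr rfl fun w hw => ?_
        obtain ⟨q, hq⟩ := hex w hw
        rw [Finset.sum_eq_single q]
        · rw [if_pos hq, hram q w hw hq]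
        · intro q' _ hne
          rw [if_neg]
          exact fun h => hne (huniq w q' q h hq)
        · intro h
          exact absurd (Finset.mem_univ q) h
    _ = ∑ q : p.primesOver B, ∑ w ∈ T, if cond q w then (q.1.ramificationIdx R : ℤ) else 0 :=
        Finset.sum_comm
    _ = ∑ q : p.primesOver B, ((q.1.ramificationIdx R * q.1.inertiaDeg R : ℕ) : ℤ) := by
        refine Finset.sum_congr rfl fun q _ => ?_
        rw [← Finset.sum_filter, Finset.sum_const, hcard q, nsmul_eq_mul, Nat.cast_mul, mul_comm]
    _ = (Module.finrank K E : ℤ) := by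
        rw [← Nat.cast_sum, hsum, hrank]

/-- The inverse of a function has the opposite order. -/
theorem ord_inv {w : Place k E Ω} {g : E} {m : ℤ} (h : w.IsOrd g m) : w.IsOrd g⁻¹ (-m) := by
  obtain ⟨π, u, hπ, hx, hu, hu', hu0, rfl⟩ := h
  refine ⟨π, u⁻¹, hπ, hx, hu', by rwa [inv_inv], inv_ne_zero hu0, ?_⟩
  rw [mul_inv, zpow_neg]

/-- The divisor of a function has degree `0`. -/
theorem sum_ord [CharZero k] [IsAlgClosed Ω] (hE : IsFunField k E) {g : E} (hg : g ≠ 0)
    (S : Finset (Place k E Ω)) (m : Place k E Ω → ℤ)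
    (h1 : ∀ w, w ∉ S → g ∈ w.V ∧ g⁻¹ ∈ w.V) (h2 : ∀ w ∈ S, w.IsOrd g (m w)) :
    ∑ w ∈ S, m w = 0 := by
  classical
  by_cases hx : Transcendental k g
  · have hx' : Transcendental k g⁻¹ := fun h => hx (by simpa using h.inv)
    have hnu : ∀ (w : Place k E Ω) (y : E), y ≠ 0 → (y ∈ w.V.nonunits ↔ y⁻¹ ∉ w.V) := by
      intro w y hy
      rw [ValuationSubring.mem_nonunits_iff_or]
      exact ⟨fun h => h.resolve_left hy, Or.inr⟩
    have hz := sum_zeros hE hx (S.filter fun w => g ∈ w.V.nonunits) m (fun w => by
      rw [Finset.mem_filter]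
      refine ⟨fun h => h.2, fun h => ⟨?_, h⟩⟩
      by_contra hS
      exact ((hnu w g hg).1 h) (h1 w hS).2) fun w hw => h2 w (Finset.mem_filter.1 hw).1
    have hp := sum_zeros hE hx' (S.filter fun w => g⁻¹ ∈ w.V.nonunits) (fun w => - m w) (fun w => by
      rw [Finset.mem_filter]
      refine ⟨fun h => h.2, fun h => ⟨?_, h⟩⟩
      by_contra hS
      apply ((hnu w g⁻¹ (inv_ne_zero hg)).1 h)
      rw [inv_inv]
      exact (h1 w hS).1) fun w hw => ord_inv (h2 w (Finset.mem_filter.1 hw).1)
    have hK : IntermediateField.adjoin k {g} = IntermediateField.adjoin k {g⁻¹} := by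
      apply le_antisymm
      · rw [IntermediateField.adjoin_simple_le_iff]
        have h3 := IntermediateField.mem_adjoin_simple_self k g⁻¹
        simpa using inv_mem h3
      · rw [IntermediateField.adjoin_simple_le_iff]
        exact inv_mem (IntermediateField.mem_adjoin_simple_self k g)
    rw [← hK, ← hz, Finset.sum_neg_distrib] at hp
    have h3 : ∑ w ∈ S, m w = ∑ w ∈ S.filter (fun w => g ∈ w.V.nonunits), m w +
        ∑ w ∈ S.filter (fun w => g⁻¹ ∈ w.V.nonunits), m w := by
      rw [Finset.sum_filter, Finset.sum_filter, ← Finset.sum_add_distrib]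
      refine Finset.sum_congr rfl fun w hw => ?_
      rw [hnu w g hg, hnu w g⁻¹ (inv_ne_zero hg), inv_inv]
      by_cases ha : g ∈ w.V
      · by_cases hb : g⁻¹ ∈ w.V
        · rw [if_neg (not_not.2 hb), if_neg (not_not.2 ha), (h2 w hw).eq_zero ha hb, add_zero]
        · rw [if_pos hb, if_neg (not_not.2 ha), add_zero]
      · have hb : g⁻¹ ∈ w.V := (w.V.mem_or_inv_mem g).resolve_left ha
        rw [if_neg (not_not.2 hb), if_pos ha, zero_add]
    rw [h3]
    linarith
  · rw [Transcendental, not_not] at hx
    refine Finset.sum_eq_zero fun w hw => ?_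
    have hmem : ∀ y : E, IsAlgebraic k y → y ∈ w.V := by
      intro y hy
      obtain ⟨p, hp, hpy⟩ := hy.isIntegral
      have h3 : IsIntegral w.V.valuation.integer y := by
        let φ : k →+* w.V.valuation.integer :=
          { toFun := fun c => ⟨algebraMap k E c, (w.V.valuation_le_one_iff _).2 (w.mem c)⟩
            map_one' := by ext; simp
            map_zero' := by ext; simp
            map_mul' := by intro x y; ext; simp
            map_add' := by intro x y; ext; simp }
        refine ⟨p.map φ, hp.map φ, ?_⟩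
        rw [Polynomial.eval₂_map]
        exact hpy
      have h4 := (Valuation.Integers.mem_of_integral
        (Valuation.integer.integers w.V.valuation) h3)
      exact (w.V.valuation_le_one_iff _).1 h4
    exact (h2 w hw).eq_zero (hmem g hx) (hmem _ hx.inv)

/-- Cycles rationally equivalent to `0` have degree `0`. -/
theorem ratEq_le_deg [CharZero k] [IsAlgClosed Ω] {n : ℕ} {ι : Type}
    (f : ι → MvPolynomial (Fin n) k) : ratEq Ω f ≤ (deg Ω).ker := by
  refine (AddSubgroup.closure_le _).2 ?_
  rintro z ⟨E, _, _, hE, g, p, hg, _, _, S, m, x, h1, h2, rfl⟩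
  change deg Ω _ = 0
  rw [map_sum]
  have h3 : ∀ w ∈ S, deg Ω (Finsupp.single (x w) (m w)) = m w := by
    intro w _
    simp [deg]
  rw [Finset.sum_congr rfl h3]
  exact sum_ord hE hg S m h1 fun w hw => (h2 w hw).1

/-- Cycles rationally equivalent to `0` are zero-cycles of degree `0`. -/
theorem ratEq_le_cyc0 [CharZero k] [IsAlgClosed Ω] {n : ℕ} {ι : Type}
    {f : ι → MvPolynomial (Fin n) k} (hf : ∀ i, ∃ d, (f i).IsHomogeneous d) :
    ratEq Ω f ≤ cyc0 Ω f := le_inf (ratEq_le hf) (ratEq_le_deg f)

end Dz
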