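import Pool.Agent.Lib.MP_f80667_ag.Dz.Fin

/-!
The divisor of a function on a normal projective curve has degree `0`, second part: the places of
the fraction field `E` of a Dedekind domain `B` centred at a prime of `B`.
-/

open Polynomial IsDedekindDomain

namespace Dz

open ZC

universe u

section ring

variable {E B : Type u} [Field E] [CommRing B] [IsDedekindDomain B] [Algebra B E]
  [IsFractionRing B E]

/-- The valuation ring of a prime. -/
noncomputable abbrev VV (E : Type u) [Field E] {B : Type u} [CommRing B] [IsDedekindDomain B]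
    [Algebra B E] [IsFractionRing B E] (v : HeightOneSpectrum B) : ValuationSubring E :=
  HeightOneSpectrum.valuationSubringAtPrime E v

theorem VV_eq (v : HeightOneSpectrum B) : VV E v = (v.valuation E).valuationSubring :=
  HeightOneSpectrum.valuationSubringAtPrime_eq_valuationSubring v

theorem VV_ne_top (v : HeightOneSpectrum B) : VV E v ≠ ⊤ := by
  rw [VV_eq]
  simp only [ne_eq, Valuation.valuationSubring_eq_top_iff, not_not]
  infer_instance

theorem mem_VV (v : HeightOneSpectrum B) (b : B) : algebraMap B E b ∈ VV E v := by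
  rw [VV_eq, Valuation.mem_valuationSubring_iff]
  exact v.valuation_le_one b

theorem mem_nonunits_VV (v : HeightOneSpectrum B) (y : E) :
    y ∈ (VV E v).nonunits ↔ v.valuation E y < 1 := by
  rw [VV_eq, ValuationSubring.mem_nonunits_iff]
  exact ((Valuation.isEquiv_valuation_valuationSubring (v.valuation E)).lt_one_iff_lt_one).symm

theorem map_mem_nonunits_VV (v : HeightOneSpectrum B) (b : B) :
    algebraMap B E b ∈ (VV E v).nonunits ↔ b ∈ v.asIdeal := by
  rw [mem_nonunits_VV, HeightOneSpectrum.valuation_lt_one_iff_mem]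

end ring

variable {k E Ω : Type u} [Field k] [Field E] [Field Ω] [Algebra k E] [Algebra k Ω]
  {B : Type u} [CommRing B] [IsDedekindDomain B] [Algebra k B] [Algebra B E] [IsScalarTower k B E]
  [IsFractionRing B E]

section rs

variable (v : HeightOneSpectrum B) (φ : B ⧸ v.asIdeal →ₐ[k] Ω)

/-- The residue homomorphism. -/
noncomputable def rs (E : Type u) [Field E] [Algebra B E] [IsFractionRing B E] : VV E v →+* Ω :=
  IsLocalization.lift (M := v.asIdeal.primeCompl) (S := VV E v)
    (g := (φ : B ⧸ v.asIdeal →+* Ω).comp (Ideal.Quotient.mk v.asIdeal)) (by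
      rintro ⟨y, hy⟩
      have := v.isMaximal
      let : Field (B ⧸ v.asIdeal) := Ideal.Quotient.field v.asIdeal
      have h1 : Ideal.Quotient.mk v.asIdeal y ≠ 0 := fun h =>
        hy (Ideal.Quotient.eq_zero_iff_mem.1 h)
      exact (IsUnit.mk0 _ h1).map (φ : B ⧸ v.asIdeal →+* Ω))

theorem rs_map (b : B) :
    rs v φ E (algebraMap B (VV E v) b) = φ (Ideal.Quotient.mk v.asIdeal b) := by
  rw [rs, IsLocalization.lift_eq]
  rfl

theorem rs_mk (b : B) (h : algebraMap B E b ∈ VV E v) :
    rs v φ E ⟨algebraMap B E b, h⟩ = φ (Ideal.Quotient.mk v.asIdeal b) := rs_map v φ b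

/-- The place of a prime and an embedding of its residue field. -/
noncomputable def plc (E : Type u) [Field E] [Algebra k E] [Algebra B E] [IsScalarTower k B E]
    [IsFractionRing B E] : Place k E Ω where
  V := VV E v
  ne_top := VV_ne_top v
  mem a := by
    rw [IsScalarTower.algebraMap_apply k B E]
    exact mem_VV v _
  res := rs v φ E
  res_k a := by
    have h1 : (⟨algebraMap k E a, by
        rw [IsScalarTower.algebraMap_apply k B E]
        exact mem_VV v _⟩ : VV E v) = ⟨algebraMap B E (algebraMap k B a), mem_VV v _⟩ := by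
      ext
      exact IsScalarTower.algebraMap_apply k B E a
    rw [h1, rs_mk]
    have h2 : Ideal.Quotient.mk v.asIdeal (algebraMap k B a) = algebraMap k _ a := rfl
    rw [h2, AlgHom.commutes]
  res_zero := by
    rintro ⟨x, hx⟩ hu
    have hx' : x ∈ (VV E v).nonunits := by
      have h1 : ((⟨x, hx⟩ : VV E v) : E) ∈ (VV E v).nonunits := by
        rw [ValuationSubring.coe_mem_nonunits_iff, IsLocalRing.mem_maximalIdeal, mem_nonunits_iff]
        exact hu
      exact h1
    obtain ⟨n, d, hnd⟩ := v.exists_primeCompl_mul_eq_of_integer x (by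
      rw [VV_eq, Valuation.mem_valuationSubring_iff] at hx
      exact hx)
    have h2 : v.valuation E (algebraMap B E n) < 1 := by
      rw [← hnd, map_mul]
      rw [mem_nonunits_VV] at hx'
      have h3 : v.valuation E (algebraMap B E d) ≤ 1 := v.valuation_le_one _
      exact lt_of_le_of_lt (mul_le_of_le_one_right' h3) hx'
    rw [HeightOneSpectrum.valuation_lt_one_iff_mem] at h2
    have h4 : (⟨x, hx⟩ : VV E v) * ⟨algebraMap B E d, mem_VV v _⟩ =
        ⟨algebraMap B E n, mem_VV v _⟩ := by
      ext
      exact hnd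
    have h5 := congrArg (rs v φ E) h4
    rw [map_mul, rs_mk, rs_mk, Ideal.Quotient.eq_zero_iff_mem.2 h2, map_zero] at h5
    refine (mul_eq_zero.1 h5).resolve_right fun h6 => ?_
    have := v.isMaximal
    let : Field (B ⧸ v.asIdeal) := Ideal.Quotient.field v.asIdeal
    rw [map_eq_zero] at h6
    exact d.2 (Ideal.Quotient.eq_zero_iff_mem.1 h6)

theorem plc_V : (plc v φ E).V = VV E v := rfl

theorem plc_inj : Function.Injective (fun φ : B ⧸ v.asIdeal →ₐ[k] Ω => plc v φ E) := by
  intro φ φ' h
  ext b
  obtain ⟨b, rfl⟩ := Ideal.Quotient.mk_surjective b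
  rw [← rs_mk (E := E) v φ b (mem_VV v b), ← rs_mk (E := E) v φ' b (mem_VV v b)]
  have key : ∀ (w w' : Place k E Ω) (h : w = w') (y : E) (h1 : y ∈ w.V) (h2 : y ∈ w'.V),
      w.res ⟨y, h1⟩ = w'.res ⟨y, h2⟩ := by
    rintro w _ rfl y h1 h2
    rfl
  exact key _ _ h _ _ _

end rs

/-- A place which contains `B` and whose centre is `v` is given by `plc`. -/
theorem plc_surj (v : HeightOneSpectrum B) (w : Place k E Ω) (hB : ∀ b : B, algebraMap B E b ∈ w.V)
    (hw : ∀ b : B, algebraMap B E b ∈ w.V.nonunits ↔ b ∈ v.asIdeal) :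
    ∃ φ : B ⧸ v.asIdeal →ₐ[k] Ω, plc v φ E = w := by
  -- the homomorphism on `B`
  let χ : B →ₐ[k] Ω :=
    { toFun := fun b => w.res ⟨algebraMap B E b, hB b⟩
      map_one' := by
        rw [← map_one w.res]
        congr 1
        ext
        simp
      map_zero' := by
        rw [← map_zero w.res]
        congr 1
        ext
        simp
      map_mul' := by
        intro x y
        rw [← map_mul]
        congr 1
        ext
        simp
      map_add' := by
        intro x y
        rw [← map_add]
        congr 1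
        ext
        simp
      commutes' := by
        intro a
        rw [← w.res_k a]
        congr 1
        ext
        exact (IsScalarTower.algebraMap_apply k B E a).symm }
  have hχ : ∀ b, χ b = w.res ⟨algebraMap B E b, hB b⟩ := fun b => rfl
  have hχ0 : ∀ b ∈ v.asIdeal, χ b = 0 := by
    intro b hb
    rw [hχ, Fa.res_eq_zero_iff]
    exact (hw b).2 hb
  let φ : B ⧸ v.asIdeal →ₐ[k] Ω := Ideal.Quotient.liftₐ v.asIdeal χ hχ0
  have hφ : ∀ b, φ (Ideal.Quotient.mk v.asIdeal b) = χ b := fun b => rfl
  have hle : VV E v ≤ w.V := by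
    intro y hy
    obtain ⟨n, d, hnd⟩ := v.exists_primeCompl_mul_eq_of_integer y (by
      rw [VV_eq, Valuation.mem_valuationSubring_iff] at hy
      exact hy)
    have h1 : algebraMap B E d ∉ w.V.nonunits := fun h => d.2 ((hw _).1 h)
    have h2 : (algebraMap B E d)⁻¹ ∈ w.V := by
      by_contra h3
      exact h1 ((ValuationSubring.mem_nonunits_iff_or _).2 (Or.inr h3))
    have h3 : algebraMap B E d ≠ 0 := fun h => h1 ((ValuationSubring.mem_nonunits_iff_or _).2
      (Or.inl h))
    have h4 : y = algebraMap B E n * (algebraMap B E d)⁻¹ := by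
      rw [← hnd]
      field_simp
    rw [h4]
    exact w.V.mul_mem _ _ (hB n) h2
  have hV : VV E v = w.V := by
    exact ValuationSubring.eq_of_le_of_ne_top _ hle w.ne_top
  refine ⟨φ, Place.ext' hV fun y h h' => ?_⟩
  obtain ⟨n, d, hnd⟩ := v.exists_primeCompl_mul_eq_of_integer y (by
    rw [plc_V, VV_eq, Valuation.mem_valuationSubring_iff] at h
    exact h)
  have h1 : χ d ≠ 0 := by
    rw [hχ, Ne, Fa.res_eq_zero_iff]
    exact fun h => d.2 ((hw _).1 h)
  have h2 : (plc v φ E).res ⟨y, h⟩ * χ d = χ n := by
    rw [← hφ, ← hφ, ← rs_mk (E := E) v φ n (mem_VV v n), ← rs_mk (E := E) v φ d (mem_VV v d)]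
    change rs v φ E ⟨y, h⟩ * _ = _
    rw [← map_mul]
    congr 1
    ext
    exact hnd
  have h3 : w.res ⟨y, h'⟩ * χ d = χ n := by
    rw [hχ, hχ, ← map_mul]
    congr 1
    ext
    exact hnd
  exact mul_right_cancel₀ h1 (h2.trans h3.symm)

/-- The order of an element of `B` at a place with centre `v`. -/
theorem ord_plc (v : HeightOneSpectrum B) (w : Place k E Ω) (hV : w.V = VV E v) {b : B}
    (hb : b ≠ 0) : w.IsOrd (algebraMap B E b) (multiplicity v.asIdeal (Ideal.span {b}) : ℤ) := by
  obtain ⟨π, hπ⟩ := v.valuation_exists_uniformizer E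
  have hπ0 : π ≠ 0 := by
    rintro rfl
    rw [map_zero] at hπ
    exact WithZero.exp_ne_zero hπ.symm
  have hb' : algebraMap B E b ≠ 0 := by
    rw [Ne, IsFractionRing.to_map_eq_zero_iff]
    exact hb
  set e : ℤ := (multiplicity v.asIdeal (Ideal.span {b}) : ℤ) with he
  have h1 : v.valuation E (algebraMap B E b) = WithZero.exp (-e) := by
    rw [HeightOneSpectrum.valuation_of_algebraMap, v.intValuation_eq_exp_neg_multiplicity hb]
  have h2 : v.valuation E (π ^ e) = WithZero.exp (-e) := by
    rw [map_zpow₀, hπ, ← WithZero.exp_zsmul]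
    congr 1
    simp
  have hπe : π ^ e ≠ 0 := zpow_ne_zero _ hπ0
  refine ⟨π, algebraMap B E b / π ^ e, hπ0, fun y => ?_, ?_, ?_, div_ne_zero hb' hπe, ?_⟩
  · rw [hV, mem_nonunits_VV, VV_eq, Valuation.mem_valuationSubring_iff, map_div₀, hπ]
    rw [div_le_one₀ (by exact WithZero.exp_pos)]
    constructor
    · intro h
      by_cases hy : y = 0
      · rw [hy, map_zero]
        exact zero_le
      · have h3 : v.valuation E y ≠ 0 := (Valuation.ne_zero_iff _).2 hy
        rw [← WithZero.exp_log h3] at h ⊢
        rw [← WithZero.exp_zero, WithZero.exp_lt_exp] at h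
        rw [WithZero.exp_le_exp]
        omega
    · intro h
      refine lt_of_le_of_lt h ?_
      rw [← WithZero.exp_zero, WithZero.exp_lt_exp]
      omega
  · rw [hV, VV_eq, Valuation.mem_valuationSubring_iff, map_div₀, h1, h2, div_self]
    exact WithZero.exp_ne_zero
  · rw [hV, VV_eq, Valuation.mem_valuationSubring_iff, inv_div, map_div₀, h1, h2, div_self]
    exact WithZero.exp_ne_zero
  · field_simp

end Dz
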